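import Pool.Agent.U37.LC.Stm

set_option autoImplicit false

open MeasureTheory Filter Topology Complex Set
open scoped ComplexConjugate ENNReal

namespace Pool.Agent.U619.LC
open Pool.Agent.U37.LC

lemma ofReal_tsum_le {ι : Type*} (f : ι → ℝ) (hf : ∀ i, 0 ≤ f i) :
    ENNReal.ofReal (∑' i, f i) ≤ ∑' i, ENNReal.ofReal (f i) := by
  by_cases h : Summable f
  · rw [ENNReal.ofReal_tsum_of_nonneg hf h]
  · rw [tsum_eq_zero_of_not_summable h]; simp

lemma theta_eq (t : ℝ) (ht : 0 < t) (u : ℝ) :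
    ∑' n : ℤ, cexp (-(t : ℂ) * n ^ 2 + 2 * Real.pi * (I * u) * n) =
      ((Real.sqrt (Real.pi / t) *
        ∑' n : ℤ, Real.exp (-(Real.pi ^ 2 / t) * (n - u) ^ 2) : ℝ) : ℂ) := by
  have hpi := Real.pi_pos
  have h := Complex.tsum_exp_neg_quadratic (a := ((t / Real.pi : ℝ) : ℂ))
    (by rw [ofReal_re]; positivity) (I * u)
  have hpi' : (Real.pi : ℂ) ≠ 0 := by exact_mod_cast hpi.ne'
  have ht' : (t : ℂ) ≠ 0 := by exact_mod_cast ht.ne'
  have e1 : ∀ n : ℤ, cexp (-(t : ℂ) * n ^ 2 + 2 * Real.pi * (I * u) * n) =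
      cexp (-Real.pi * ((t / Real.pi : ℝ) : ℂ) * n ^ 2 + 2 * Real.pi * (I * u) * n) := by
    intro n
    congr 1
    push_cast
    field_simp
  rw [tsum_congr e1, h, ofReal_mul, ofReal_tsum]
  congr 1
  · rw [one_div, ← Complex.ofReal_one]
    have : ((1 : ℂ) / 2) = ((1 / 2 : ℝ) : ℂ) := by push_cast; rfl
    rw [show ((((1 : ℝ) : ℂ)) / 2) = ((1 / 2 : ℝ) : ℂ) by push_cast; rfl,
      ← Complex.ofReal_cpow (by positivity), ← Complex.ofReal_inv]
    congr 1
    rw [← Real.sqrt_eq_rpow, ← Real.sqrt_inv, inv_div]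
  · refine tsum_congr fun n => ?_
    rw [ofReal_exp]
    congr 1
    have h2 : ((n : ℂ) + I * (I * u)) = n - u := by
      rw [← mul_assoc, I_mul_I]; ring
    rw [h2]
    push_cast
    field_simp

lemma gauss_int (t : ℝ) (ht : 0 < t) (v : ℝ) :
    ∫ η : ℝ, cexp (-(t : ℂ) * η ^ 2 + 2 * Real.pi * (I * v) * η) =
      ((Real.sqrt (Real.pi / t) * Real.exp (-(Real.pi ^ 2 / t) * v ^ 2) : ℝ) : ℂ) := by
  have h := fourierIntegral_gaussian (b := (t : ℂ)) (by rw [ofReal_re]; exact ht) (2 * Real.pi * v)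
  have ht' : (t : ℂ) ≠ 0 := by exact_mod_cast ht.ne'
  have e1 : (fun η : ℝ => cexp (-(t : ℂ) * η ^ 2 + 2 * Real.pi * (I * v) * η)) =
      fun η : ℝ => cexp (I * (2 * Real.pi * v) * η) * cexp (-(t : ℂ) * η ^ 2) := by
    funext η
    rw [← Complex.exp_add]
    congr 1
    ring
  rw [e1, h, ofReal_mul, ofReal_exp]
  congr 1
  · rw [Real.sqrt_eq_rpow, Complex.ofReal_cpow (by positivity)]
    push_cast
    rfl
  · congr 1
    push_cast
    field_simp
    ring

lemma summable_gauss (t : ℝ) (ht : 0 < t) :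
    Summable (fun n : ℤ => Real.exp (-t * (n : ℝ) ^ 2)) := by
  have hpi := Real.pi_pos
  have h := summable_pow_mul_jacobiTheta₂_term_bound 0 (T := t / Real.pi) (by positivity) 0
  refine h.congr fun n => ?_
  simp only [pow_zero, one_mul, mul_zero, zero_mul, sub_zero]
  congr 1
  field_simp

noncomputable def nu : Measure (ℤ × ℝ) := (Measure.count : Measure ℤ).prod volume

instance : SFinite nu := by unfold nu; infer_instance

noncomputable def w (t : ℝ) (q : ℤ × ℝ) : ℝ := Real.exp (-(t * rho q.1 q.2))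

noncomputable def ph (q : ℤ × ℝ) (x y : ℝ) : ℂ := cexp (2 * Real.pi * I * (q.1 * x + q.2 * y))

lemma norm_ph (q : ℤ × ℝ) (x y : ℝ) : ‖ph q x y‖ = 1 := by
  unfold ph
  rw [Complex.norm_exp]
  simp

lemma w_nonneg (t : ℝ) (q : ℤ × ℝ) : 0 ≤ w t q := (Real.exp_pos _).le

lemma integrable_w (t : ℝ) (ht : 0 < t) : Integrable (w t) nu := by
  have h1 : Integrable (fun n : ℤ => Real.exp (-t * (n : ℝ) ^ 2)) (Measure.count : Measure ℤ) := by
    rw [integrable_count_iff]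
    simpa using (summable_gauss t ht)
  have h2 : Integrable (fun η : ℝ => Real.exp (-t * η ^ 2)) volume :=
    integrable_exp_neg_mul_sq ht
  have h3 := (h1.mul_prod h2).const_mul (Real.exp (-t))
  refine h3.congr (Eventually.of_forall fun q => ?_)
  simp only [w, rho]
  rw [← Real.exp_add, ← Real.exp_add]
  congr 1
  ring

lemma continuous_w (t : ℝ) : Continuous (w t) := by
  unfold w rho
  fun_prop

lemma measurable_ph (x y : ℝ) : Measurable (fun q : ℤ × ℝ => ph q x y) := by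
  unfold ph
  fun_prop

lemma integrable_w_ph (t : ℝ) (ht : 0 < t) (u v : ℝ) :
    Integrable (fun q : ℤ × ℝ => (w t q : ℂ) * ph q u v) nu := by
  refine (integrable_w t ht).mono' ?_ ?_
  · exact ((measurable_ofReal.comp (continuous_w t).measurable).mul
      (measurable_ph u v)).aestronglyMeasurable
  · refine Eventually.of_forall fun q => ?_
    rw [norm_mul, norm_ph, mul_one, Complex.norm_real, Real.norm_of_nonneg (w_nonneg t q)]

lemma kernel_eq (t : ℝ) (ht : 0 < t) (u v : ℝ) :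
    ∫ q, (w t q : ℂ) * ph q u v ∂nu =
      ((Real.exp (-t) * (Real.pi / t) * Real.exp (-(Real.pi ^ 2 / t) * v ^ 2) *
        ∑' n : ℤ, Real.exp (-(Real.pi ^ 2 / t) * (n - u) ^ 2) : ℝ) : ℂ) := by
  have hint := integrable_w_ph t ht u v
  have hpi := Real.pi_pos
  have e1 : ∀ n : ℤ, ∫ η : ℝ, (w t (n, η) : ℂ) * ph (n, η) u v =
      cexp (-t) * cexp (-(t : ℂ) * n ^ 2 + 2 * Real.pi * (I * u) * n) *
        ∫ η : ℝ, cexp (-(t : ℂ) * η ^ 2 + 2 * Real.pi * (I * v) * η) := by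
    intro n
    rw [← integral_const_mul]
    refine integral_congr_ae (Eventually.of_forall fun η => ?_)
    simp only [w, rho, ph]
    rw [ofReal_exp, ← Complex.exp_add, ← Complex.exp_add, ← Complex.exp_add]
    congr 1
    push_cast
    ring
  unfold nu at hint ⊢
  rw [integral_prod _ hint, integral_countable hint.integral_prod_left]
  simp only [Measure.real, Measure.count_singleton, ENNReal.toReal_one, one_smul]
  simp_rw [e1, gauss_int t ht v]
  rw [tsum_mul_right, tsum_mul_left, theta_eq t ht u]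
  push_cast
  have hs : ((Real.sqrt (Real.pi / t) : ℝ) : ℂ) * ((Real.sqrt (Real.pi / t) : ℝ) : ℂ) =
      (Real.pi : ℂ) / t := by
    rw [← ofReal_mul, Real.mul_self_sqrt (by positivity)]
    push_cast
    rfl
  rw [← hs]
  ring

/-- the Gaussian upper bound of the kernel -/
noncomputable def PP (κ L : ℝ) (s s' : ℝ) : ℝ≥0∞ :=
  ∑' m : ℤ, ENNReal.ofReal (Real.exp (-κ * (s' - m * L - s) ^ 2))

lemma PP_symm (κ L s s' : ℝ) : PP κ L s s' = PP κ L s' s := by
  unfold PP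
  rw [← (Equiv.neg ℤ).tsum_eq]
  refine tsum_congr fun m => ?_
  congr 3
  simp only [Equiv.neg_apply, Int.cast_neg]
  ring

lemma measurable_PP (κ L : ℝ) : Measurable (fun z : ℝ × ℝ => PP κ L z.1 z.2) := by
  unfold PP
  refine Measurable.tsum fun m => ?_
  fun_prop

lemma lint_gauss (κ : ℝ) (hκ : 0 < κ) (s : ℝ) :
    ∫⁻ x : ℝ, ENNReal.ofReal (Real.exp (-κ * (x - s) ^ 2)) =
      ENNReal.ofReal (Real.sqrt (Real.pi / κ)) := by
  rw [lintegral_sub_right_eq_self (fun x => ENNReal.ofReal (Real.exp (-κ * x ^ 2))) s,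
    ← ofReal_integral_eq_lintegral_ofReal (integrable_exp_neg_mul_sq hκ)
      (Eventually.of_forall fun x => (Real.exp_pos _).le), integral_gaussian]

lemma lint_PP (κ L : ℝ) (hκ : 0 < κ) (hL : 0 < L) (s : ℝ) :
    ∫⁻ s' in Ioc (0 : ℝ) L, PP κ L s s' = ENNReal.ofReal (Real.sqrt (Real.pi / κ)) := by
  rw [← lint_gauss κ hκ s]
  unfold PP
  rw [lintegral_tsum (fun m => by fun_prop)]
  have e1 : ∀ m : ℤ, ∫⁻ s' in Ioc (0 : ℝ) L, ENNReal.ofReal (Real.exp (-κ * (s' - m * L - s) ^ 2)) =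
      ∫⁻ x in Ioc (0 + (-m) • L) (0 + (-m + 1) • L), ENNReal.ofReal (Real.exp (-κ * (x - s) ^ 2)) := by
    intro m
    have hmp := (measurePreserving_sub_right (volume : Measure ℝ) ((m : ℝ) * L))
    have hemb : MeasurableEmbedding (fun x : ℝ => x - (m : ℝ) * L) :=
      (MeasurableEquiv.subRight ((m : ℝ) * L)).measurableEmbedding
    have := hmp.setLIntegral_comp_preimage_emb hemb
      (fun x => ENNReal.ofReal (Real.exp (-κ * (x - s) ^ 2)))
      (Ioc (0 + (-m) • L) (0 + (-m + 1) • L))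
    rw [← this]
    congr 2
    ext x
    simp only [mem_Ioc, mem_preimage, zsmul_eq_mul, Int.cast_neg, Int.cast_add, Int.cast_one]
    constructor
    · rintro ⟨h1, h2⟩; constructor <;> linarith
    · rintro ⟨h1, h2⟩; constructor <;> linarith
  simp_rw [e1]
  rw [← (Equiv.neg ℤ).tsum_eq]
  simp only [Equiv.neg_apply, neg_neg]
  rw [← lintegral_iUnion (fun m => measurableSet_Ioc) (pairwise_disjoint_Ioc_add_zsmul 0 L),
    iUnion_Ioc_add_zsmul hL 0, Measure.restrict_univ]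

lemma X_sub {L : ℝ} {X Y : ℝ → ℝ} (h : Coord L X Y) (s : ℝ) (m : ℤ) : X (s - m * L) = X s - m := by
  have hL := h.pos
  have hp : Function.Periodic (fun x => X x - x / L) L := by
    intro x
    simp only [h.perX]
    field_simp
    ring
  have := hp.sub_zsmul_eq (x := s) m
  simp only [zsmul_eq_mul] at this
  have e : (s - m * L) / L = s / L - m := by field_simp
  rw [e] at this
  linarith

lemma Y_sub {L : ℝ} {X Y : ℝ → ℝ} (h : Coord L X Y) (s : ℝ) (m : ℤ) : Y (s - m * L) = Y s := by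
  have hp : Function.Periodic Y L := h.perY
  have := hp.sub_zsmul_eq (x := s) m
  simpa only [zsmul_eq_mul] using this

lemma kernel_bound {L : ℝ} {X Y : ℝ → ℝ} (h : Coord L X Y) (c : ℝ) (hc : 0 < c)
    (hl : ∀ s t, c * |s - t| ≤ |X s - X t| + |Y s - Y t|) (t : ℝ) (ht : 0 < t) (s s' : ℝ) :
    ‖∫ q, (w t q : ℂ) * ph q (X s' - X s) (Y s' - Y s) ∂nu‖ₑ ≤
      ENNReal.ofReal (Real.exp (-t) * (Real.pi / t)) * PP (Real.pi ^ 2 * c ^ 2 / (2 * t)) L s s' := by
  have hpi := Real.pi_pos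
  set u := X s' - X s with hu
  set v := Y s' - Y s with hv
  rw [kernel_eq t ht u v]
  have h0 : 0 ≤ ∑' n : ℤ, Real.exp (-(Real.pi ^ 2 / t) * (n - u) ^ 2) :=
    tsum_nonneg fun n => (Real.exp_pos _).le
  rw [← ofReal_norm, Complex.norm_real, Real.norm_of_nonneg (by positivity), mul_assoc,
    ENNReal.ofReal_mul (by positivity)]
  gcongr
  rw [← tsum_mul_left]
  refine (ofReal_tsum_le _ fun n => by positivity).trans ?_
  unfold PP
  refine ENNReal.tsum_le_tsum fun n => ?_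
  refine ENNReal.ofReal_le_ofReal ?_
  rw [← Real.exp_add]
  refine Real.exp_le_exp.mpr ?_
  have h1 := hl (s' - n * L) s
  rw [X_sub h, Y_sub h] at h1
  have h2 : |X s' - n - X s| = |(n : ℝ) - u| := by
    rw [abs_sub_comm]
    congr 1
    rw [hu]; ring
  rw [h2, ← hv] at h1
  have h3 : c ^ 2 * (s' - n * L - s) ^ 2 ≤ 2 * (((n : ℝ) - u) ^ 2 + v ^ 2) := by
    have h4 : (c * |s' - n * L - s|) ^ 2 ≤ (|(n : ℝ) - u| + |v|) ^ 2 :=
      pow_le_pow_left₀ (by positivity) h1 2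
    have h5 : (c * |s' - n * L - s|) ^ 2 = c ^ 2 * (s' - n * L - s) ^ 2 := by
      rw [mul_pow, sq_abs]
    have h6 := sq_nonneg (|(n : ℝ) - u| - |v|)
    nlinarith [sq_abs ((n : ℝ) - u), sq_abs v]
  have e1 : -(Real.pi ^ 2 / t) * v ^ 2 + -(Real.pi ^ 2 / t) * ((n : ℝ) - u) ^ 2 =
      -((Real.pi ^ 2 / (2 * t)) * (2 * (((n : ℝ) - u) ^ 2 + v ^ 2))) := by
    field_simp
    ring
  have e2 : -(Real.pi ^ 2 * c ^ 2 / (2 * t)) * (s' - n * L - s) ^ 2 =
      -((Real.pi ^ 2 / (2 * t)) * (c ^ 2 * (s' - n * L - s) ^ 2)) := by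
    field_simp
  rw [e1, e2]
  exact neg_le_neg (mul_le_mul_of_nonneg_left h3 (by positivity))

lemma conj_ph_mul (q : ℤ × ℝ) (x y x' y' : ℝ) :
    conj (ph q x y) * ph q x' y' = ph q (x' - x) (y' - y) := by
  unfold ph
  rw [← Complex.exp_conj, ← Complex.exp_add]
  congr 1
  simp only [map_mul, map_add, Complex.conj_I, Complex.conj_ofReal, map_ofNat]
  rw [show (starRingEnd ℂ) (q.1 : ℂ) = (q.1 : ℂ) by simp]
  push_cast
  ring

section quad
variable {L : ℝ} {X Y : ℝ → ℝ}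

/-- the transform -/
noncomputable def BB (L : ℝ) (X Y : ℝ → ℝ) (b : ℝ → ℂ) (q : ℤ × ℝ) : ℂ :=
  ∫ s in Ioc (0 : ℝ) L, conj (ph q (X s) (Y s)) * b s

lemma mul_le_sq_add_sq (a b : ℝ≥0∞) : a * b ≤ a ^ 2 + b ^ 2 := by
  rcases le_total a b with h | h
  · calc a * b ≤ b * b := by gcongr
      _ = b ^ 2 := by ring
      _ ≤ a ^ 2 + b ^ 2 := le_add_self
  · calc a * b ≤ a * a := by gcongr
      _ = a ^ 2 := by ring
      _ ≤ a ^ 2 + b ^ 2 := le_self_add

lemma measurable_ph_comp (h : Coord L X Y) :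
    Measurable (fun z : (ℤ × ℝ) × ℝ => ph z.1 (X z.2) (Y z.2)) := by
  have h1 := h.contX.measurable
  have h2 := h.contY.measurable
  unfold ph
  fun_prop

lemma schur_gen (μ : Measure ℝ) [SFinite μ] (P : ℝ → ℝ → ℝ≥0∞) (β : ℝ → ℝ≥0∞) (R : ℝ≥0∞)
    (hP : Measurable (fun z : ℝ × ℝ => P z.1 z.2)) (hβ : AEMeasurable β μ)
    (h1 : ∀ s, ∫⁻ s', P s s' ∂μ = R) (h2 : ∀ s', ∫⁻ s, P s s' ∂μ = R) :
    ∫⁻ z, (β z.1 + β z.2) * P z.1 z.2 ∂(μ.prod μ) ≤ 2 * R * ∫⁻ s, β s ∂μ := by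
  have hPs : ∀ s, Measurable (fun s' => P s s') := fun s =>
    hP.comp (measurable_const.prodMk measurable_id)
  have hPs' : ∀ s', Measurable (fun s => P s s') := fun s' =>
    hP.comp (measurable_id.prodMk measurable_const)
  have m1 : AEMeasurable (fun z : ℝ × ℝ => β z.1 * P z.1 z.2) (μ.prod μ) :=
    (hβ.comp_fst).mul hP.aemeasurable
  have m2 : AEMeasurable (fun z : ℝ × ℝ => β z.2 * P z.1 z.2) (μ.prod μ) :=
    (hβ.comp_snd).mul hP.aemeasurable
  have i1 : ∫⁻ z, β z.1 * P z.1 z.2 ∂(μ.prod μ) = R * ∫⁻ s, β s ∂μ := by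
    rw [lintegral_prod _ m1]
    have : ∀ s, ∫⁻ s', β s * P s s' ∂μ = β s * R := fun s => by
      rw [lintegral_const_mul _ (hPs s), h1]
    simp only [this]
    rw [lintegral_mul_const'' _ hβ, mul_comm]
  have i2 : ∫⁻ z, β z.2 * P z.1 z.2 ∂(μ.prod μ) = R * ∫⁻ s, β s ∂μ := by
    rw [lintegral_prod_symm _ m2]
    have : ∀ s', ∫⁻ s, β s' * P s s' ∂μ = β s' * R := fun s' => by
      rw [lintegral_const_mul _ (hPs' s'), h2]
    simp only [this]
    rw [lintegral_mul_const'' _ hβ, mul_comm]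
  have e : ∫⁻ z, (β z.1 + β z.2) * P z.1 z.2 ∂(μ.prod μ) =
      ∫⁻ z, β z.1 * P z.1 z.2 + β z.2 * P z.1 z.2 ∂(μ.prod μ) :=
    lintegral_congr fun z => add_mul _ _ _
  rw [e, lintegral_add_left' m1, i1, i2]
  apply le_of_eq
  ring

lemma meas_left (P : ℝ → ℝ → ℝ≥0∞) (hP : Measurable (fun z : ℝ × ℝ => P z.1 z.2)) (s : ℝ) :
    Measurable (fun s' => P s s') :=
  hP.comp (measurable_const.prodMk measurable_id)

lemma schur (κ L : ℝ) (hκ0 : 0 < κ) (hL : 0 < L) (b : ℝ → ℂ) (A : ℝ≥0∞) (μ : Measure ℝ)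
    (hμ : μ = (volume : Measure ℝ).restrict (Ioc (0 : ℝ) L)) (hb : AEStronglyMeasurable b μ) :
    ∫⁻ z, (‖b z.1‖ₑ ^ 2 + ‖b z.2‖ₑ ^ 2) * (A * PP κ L z.1 z.2) ∂(μ.prod μ) ≤
    2 * (A * ENNReal.ofReal (Real.sqrt (Real.pi / κ))) * ∫⁻ s, ‖b s‖ₑ ^ 2 ∂μ := by
  have hPm := (measurable_PP κ L)
  have hPs : ∀ s, Measurable (fun s' => PP κ L s s') := meas_left (PP κ L) hPm
  have hsf : SFinite μ := by rw [hμ]; infer_instance
  have k1 : ∀ s, ∫⁻ s', A * PP κ L s s' ∂μ = A * ENNReal.ofReal (Real.sqrt (Real.pi / κ)) := by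
    intro s
    rw [lintegral_const_mul _ (hPs s), hμ, lint_PP κ L hκ0 hL s]
  have k2 : ∀ s', ∫⁻ s, A * PP κ L s s' ∂μ = A * ENNReal.ofReal (Real.sqrt (Real.pi / κ)) := by
    intro s'
    have : ∀ s, A * PP κ L s s' = A * PP κ L s' s := fun s => by rw [PP_symm]
    rw [lintegral_congr this, k1]
  exact schur_gen μ (fun s s' => A * PP κ L s s') (fun s => ‖b s‖ₑ ^ 2)
    (A * ENNReal.ofReal (Real.sqrt (Real.pi / κ))) (hPm.const_mul A) ((hb.enorm).pow_const 2) k1 k2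

lemma quad_bound (h : Coord L X Y) (c : ℝ) (hc : 0 < c)
    (hl : ∀ s t, c * |s - t| ≤ |X s - X t| + |Y s - Y t|) (b : ℝ → ℂ)
    (hb : MemLp b 2 (volume.restrict (Ioc (0 : ℝ) L))) (t : ℝ) (ht : 0 < t) :
    ∫⁻ q, ENNReal.ofReal (w t q * ‖BB L X Y b q‖ ^ 2) ∂nu ≤
      ENNReal.ofReal (2 * (Real.exp (-t) * (Real.pi / t)) *
        Real.sqrt (Real.pi / (Real.pi ^ 2 * c ^ 2 / (2 * t)))) *
        ∫⁻ s in Ioc (0 : ℝ) L, ‖b s‖ₑ ^ 2 := by
  have hpi := Real.pi_pos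
  set μ : Measure ℝ := volume.restrict (Ioc (0 : ℝ) L) with hμ
  have hb1 : Integrable b μ := hb.integrable (by norm_num)
  have hphn : ∀ z : (ℤ × ℝ) × (ℝ × ℝ), ‖ph z.1 (X z.2.2 - X z.2.1) (Y z.2.2 - Y z.2.1)‖ = 1 :=
    fun z => norm_ph _ _ _
  -- the integrand
  set F : (ℤ × ℝ) → (ℝ × ℝ) → ℂ := fun q z =>
    (w t q : ℂ) * (b z.1 * conj (b z.2)) * ph q (X z.2 - X z.1) (Y z.2 - Y z.1) with hF
  have hbb : Integrable (fun z : ℝ × ℝ => b z.1 * conj (b z.2)) (μ.prod μ) := by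
    refine hb1.mul_prod (g := fun x => conj (b x)) ?_
    exact (LinearIsometryEquiv.integrable_comp_iff (Complex.conjLIE)).mpr hb1
  have hint0 : Integrable (fun z : (ℤ × ℝ) × (ℝ × ℝ) => (w t z.1 : ℂ) * (b z.2.1 * conj (b z.2.2)))
      (nu.prod (μ.prod μ)) := (integrable_w t ht).ofReal.mul_prod hbb
  have hmeas : Measurable (fun z : (ℤ × ℝ) × (ℝ × ℝ) =>
      ph z.1 (X z.2.2 - X z.2.1) (Y z.2.2 - Y z.2.1)) := by
    have h1 := h.contX.measurable
    have h2 := h.contY.measurable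
    unfold ph
    fun_prop
  have hint : Integrable (Function.uncurry F) (nu.prod (μ.prod μ)) := by
    refine (hint0.mul_bdd (c := 1) hmeas.aestronglyMeasurable
      (Eventually.of_forall fun z => (hphn z).le)).congr (Eventually.of_forall fun z => ?_)
    rfl
  have step1 : ∀ q, ∫ z, F q z ∂(μ.prod μ) = ((w t q * ‖BB L X Y b q‖ ^ 2 : ℝ) : ℂ) := by
    intro q
    have e : ∀ z : ℝ × ℝ, F q z = (w t q : ℂ) * ((conj (ph q (X z.1) (Y z.1)) * b z.1) *
        (conj (conj (ph q (X z.2) (Y z.2)) * b z.2))) := by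
      intro z
      simp only [hF]
      rw [← conj_ph_mul, map_mul, Complex.conj_conj]
      ring
    simp_rw [e]
    rw [integral_const_mul, integral_prod_mul (fun s => conj (ph q (X s) (Y s)) * b s)
      (fun s => conj (conj (ph q (X s) (Y s)) * b s)), integral_conj]
    change (w t q : ℂ) * (BB L X Y b q * conj (BB L X Y b q)) = _
    rw [Complex.mul_conj, Complex.normSq_eq_norm_sq]
    push_cast
    rfl
  have hint' : Integrable (fun q => (w t q * ‖BB L X Y b q‖ ^ 2)) nu := by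
    have h1 := hint.integral_prod_left
    simp only [Function.uncurry_apply_pair, step1] at h1
    exact h1.re.congr (Eventually.of_forall fun q => Complex.ofReal_re _)
  have step3 : ∀ z : ℝ × ℝ, ∫ q, F q z ∂nu = (b z.1 * conj (b z.2)) *
      ∫ q, (w t q : ℂ) * ph q (X z.2 - X z.1) (Y z.2 - Y z.1) ∂nu := by
    intro z
    rw [← integral_const_mul]
    refine integral_congr_ae (Eventually.of_forall fun q => ?_)
    simp only [hF]
    ring
  set κ := Real.pi ^ 2 * c ^ 2 / (2 * t) with hκ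
  have hκ0 : 0 < κ := by positivity
  set A : ℝ≥0∞ := ENNReal.ofReal (Real.exp (-t) * (Real.pi / t)) with hA
  have key : ENNReal.ofReal (∫ q, (w t q * ‖BB L X Y b q‖ ^ 2) ∂nu) ≤
      ∫⁻ z, (‖b z.1‖ₑ ^ 2 + ‖b z.2‖ₑ ^ 2) * (A * PP κ L z.1 z.2) ∂(μ.prod μ) := by
    have h0 : 0 ≤ ∫ q, (w t q * ‖BB L X Y b q‖ ^ 2) ∂nu :=
      integral_nonneg fun q => mul_nonneg (w_nonneg t q) (by positivity)
    have h1 : ENNReal.ofReal (∫ q, (w t q * ‖BB L X Y b q‖ ^ 2) ∂nu) =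
        ‖∫ z, ∫ q, F q z ∂nu ∂(μ.prod μ)‖ₑ := by
      rw [← integral_integral_swap hint]
      simp_rw [step1]
      rw [integral_complex_ofReal, ← ofReal_norm, Complex.norm_real, Real.norm_of_nonneg h0]
    rw [h1]
    refine (enorm_integral_le_lintegral_enorm _).trans ?_
    refine lintegral_mono fun z => ?_
    rw [step3, enorm_mul, enorm_mul]
    have h2 : ‖conj (b z.2)‖ₑ = ‖b z.2‖ₑ := by
      rw [← ofReal_norm, ← ofReal_norm, Complex.norm_conj]
    rw [h2]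
    exact mul_le_mul' (mul_le_sq_add_sq _ _) (kernel_bound h c hc hl t ht z.1 z.2)
  rw [← ofReal_integral_eq_lintegral_ofReal hint' (Eventually.of_forall fun q =>
    mul_nonneg (w_nonneg t q) (by positivity))]
  refine key.trans ?_
  refine (schur κ L hκ0 h.pos b A μ hμ hb.1).trans (le_of_eq ?_)
  rw [hA, ← mul_assoc, ENNReal.ofReal_mul (p := 2 * (Real.exp (-t) * (Real.pi / t)))
    (by positivity), ENNReal.ofReal_mul (p := 2) (by norm_num), ENNReal.ofReal_ofNat]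

/-- the Gaussian representation of the weight -/
lemma rho_rep (ρ : ℝ) (hρ : 0 < ρ) :
    ENNReal.ofReal (ρ ^ (-(3 / 4) : ℝ)) = ∫⁻ t in Ioi (0 : ℝ),
      ENNReal.ofReal ((Real.Gamma (3 / 4))⁻¹ * t ^ (-(1 / 4) : ℝ) * Real.exp (-(t * ρ))) := by
  have hG : 0 < Real.Gamma (3 / 4) := Real.Gamma_pos_of_pos (by norm_num)
  have h := Real.integral_rpow_mul_exp_neg_mul_Ioi (a := 3 / 4) (r := ρ) (by norm_num) hρ
  have hI : IntegrableOn (fun t : ℝ => t ^ ((3 / 4 : ℝ) - 1) * Real.exp (-(ρ * t))) (Ioi 0) := by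
    by_contra hcon
    rw [integral_undef hcon] at h
    have : 0 < (1 / ρ) ^ (3 / 4 : ℝ) * Real.Gamma (3 / 4) := by positivity
    linarith
  have hI2 : IntegrableOn (fun t : ℝ => (Real.Gamma (3 / 4))⁻¹ * t ^ (-(1 / 4) : ℝ) *
      Real.exp (-(t * ρ))) (Ioi 0) := by
    refine (hI.const_mul (Real.Gamma (3 / 4))⁻¹).congr (Eventually.of_forall fun t => ?_)
    simp only
    rw [mul_comm ρ t, show (3 / 4 : ℝ) - 1 = -(1 / 4) by norm_num, mul_assoc]
  rw [← ofReal_integral_eq_lintegral_ofReal hI2 ?_]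
  · congr 1
    have : ∀ t : ℝ, (Real.Gamma (3 / 4))⁻¹ * t ^ (-(1 / 4) : ℝ) * Real.exp (-(t * ρ)) =
        (Real.Gamma (3 / 4))⁻¹ * (t ^ ((3 / 4 : ℝ) - 1) * Real.exp (-(ρ * t))) := by
      intro t
      rw [mul_comm ρ t, show (3 / 4 : ℝ) - 1 = -(1 / 4) by norm_num, mul_assoc]
    simp_rw [this]
    rw [integral_const_mul, h, Real.rpow_neg hρ.le, one_div, Real.inv_rpow hρ.le]
    field_simp
  · refine (ae_restrict_iff' measurableSet_Ioi).mpr (Eventually.of_forall fun t ht => ?_)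
    have : (0 : ℝ) < t := ht
    simp only [Pi.zero_apply]
    positivity

lemma aemeas_BB (h : Coord L X Y) (b : ℝ → ℂ)
    (hb : AEStronglyMeasurable b (volume.restrict (Ioc (0 : ℝ) L))) :
    AEStronglyMeasurable (BB L X Y b) nu := by
  have h1 : AEStronglyMeasurable (fun z : (ℤ × ℝ) × ℝ => conj (ph z.1 (X z.2) (Y z.2)) * b z.2)
      (nu.prod (volume.restrict (Ioc (0 : ℝ) L))) := by
    refine AEStronglyMeasurable.mul ?_ hb.comp_snd
    exact (Complex.continuous_conj.measurable.comp (measurable_ph_comp h)).aestronglyMeasurable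
  exact h1.integral_prod_right'

lemma const_eq (c : ℝ) (hc : 0 < c) (t : ℝ) (ht : 0 < t) :
    2 * (Real.exp (-t) * (Real.pi / t)) *
      Real.sqrt (Real.pi / (Real.pi ^ 2 * c ^ 2 / (2 * t))) =
    (2 * Real.pi * Real.sqrt (2 / (Real.pi * c ^ 2))) * (t ^ (-(1 / 2) : ℝ) * Real.exp (-t)) := by
  have hpi := Real.pi_pos
  have e1 : Real.pi / (Real.pi ^ 2 * c ^ 2 / (2 * t)) = (2 / (Real.pi * c ^ 2)) * t := by
    field_simp
  rw [e1, Real.sqrt_mul (by positivity)]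
  have e2 : Real.sqrt t / t = t ^ (-(1 / 2) : ℝ) := by
    rw [Real.rpow_neg ht.le, ← Real.sqrt_eq_rpow]
    have := Real.mul_self_sqrt ht.le
    have h0 : 0 < Real.sqrt t := Real.sqrt_pos.mpr ht
    field_simp
    nlinarith
  rw [← e2]
  ring
end quad

theorem jobTrace : JobTrace := by
  intro L X Y h
  obtain ⟨c, hc, hl⟩ := h.lower
  have hpi := Real.pi_pos
  have hG : 0 < Real.Gamma (3 / 4) := Real.Gamma_pos_of_pos (by norm_num)
  have hG4 : 0 < Real.Gamma (1 / 4) := Real.Gamma_pos_of_pos (by norm_num)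
  set D : ℝ := 2 * Real.pi * Real.sqrt (2 / (Real.pi * c ^ 2)) with hD
  have hD0 : 0 < D := by positivity
  refine ⟨D * (Real.Gamma (3 / 4))⁻¹ * Real.Gamma (1 / 4), by positivity, fun b hb => ?_⟩
  set μ : Measure ℝ := volume.restrict (Ioc (0 : ℝ) L) with hμ
  -- the square integral
  have hb2 : ENNReal.ofReal (∫ s, ‖b s‖ ^ 2 ∂μ) = ∫⁻ s, ‖b s‖ₑ ^ 2 ∂μ := by
    rw [ofReal_integral_eq_lintegral_ofReal
      ((memLp_two_iff_integrable_sq_norm hb.1).mp hb) (Eventually.of_forall fun s => by positivity)]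
    refine lintegral_congr fun s => ?_
    rw [ENNReal.ofReal_pow (norm_nonneg _), ofReal_norm]
  have hBm := aemeas_BB h b hb.1
  -- rewrite the left side
  have e0 : ∑' n : ℤ, ∫⁻ η : ℝ, ENNReal.ofReal (rho n η ^ (-(3 / 4) : ℝ) *
      ‖∫ s in Ioc (0 : ℝ) L, conj (ee X Y n η s) * b s‖ ^ 2) =
      ∫⁻ q, ENNReal.ofReal (rho q.1 q.2 ^ (-(3 / 4) : ℝ) * ‖BB L X Y b q‖ ^ 2) ∂nu := by
    have hm : AEMeasurable (fun q : ℤ × ℝ =>
        ENNReal.ofReal (rho q.1 q.2 ^ (-(3 / 4) : ℝ) * ‖BB L X Y b q‖ ^ 2)) nu := by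
      refine AEMeasurable.ennreal_ofReal (AEMeasurable.mul ?_ (hBm.norm.aemeasurable.pow_const 2))
      refine Measurable.aemeasurable ?_
      unfold rho
      fun_prop
    unfold nu at hm ⊢
    rw [lintegral_prod _ hm, lintegral_count]
    refine tsum_congr fun n => lintegral_congr fun η => ?_
    rfl
  rw [e0]
  have hrho : ∀ q : ℤ × ℝ, 0 < rho q.1 q.2 := fun q => by unfold rho; positivity
  set g : ℝ → ℝ := fun t => (Real.Gamma (3 / 4))⁻¹ * t ^ (-(1 / 4) : ℝ) with hg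
  have e1 : ∀ q : ℤ × ℝ, ENNReal.ofReal (rho q.1 q.2 ^ (-(3 / 4) : ℝ) * ‖BB L X Y b q‖ ^ 2) =
      ∫⁻ t in Ioi (0 : ℝ), ENNReal.ofReal (g t) *
        ENNReal.ofReal (w t q * ‖BB L X Y b q‖ ^ 2) := by
    intro q
    rw [ENNReal.ofReal_mul (Real.rpow_nonneg (hrho q).le _), rho_rep _ (hrho q),
      ← lintegral_mul_const' _ _ ENNReal.ofReal_ne_top]
    refine setLIntegral_congr_fun measurableSet_Ioi fun t ht => ?_
    have ht' : (0 : ℝ) < t := ht
    simp only [hg, w]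
    rw [ENNReal.ofReal_mul (by positivity), mul_assoc, ← ENNReal.ofReal_mul (by positivity)]
  simp_rw [e1]
  rw [lintegral_lintegral_swap ?_]
  · have e2 : ∀ t ∈ Ioi (0 : ℝ), ∫⁻ q, ENNReal.ofReal (g t) *
        ENNReal.ofReal (w t q * ‖BB L X Y b q‖ ^ 2) ∂nu ≤
        ENNReal.ofReal (D * (Real.Gamma (3 / 4))⁻¹ *
          (t ^ ((1 / 4 : ℝ) - 1) * Real.exp (-(1 * t)))) * ∫⁻ s, ‖b s‖ₑ ^ 2 ∂μ := by
      intro t ht
      have ht' : (0 : ℝ) < t := ht
      rw [lintegral_const_mul' _ _ ENNReal.ofReal_ne_top]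
      refine (mul_le_mul_right (quad_bound h c hc hl b hb t ht') _).trans (le_of_eq ?_)
      rw [← mul_assoc, ← ENNReal.ofReal_mul (by simp only [hg]; positivity), const_eq c hc t ht']
      congr 2
      simp only [hg, one_mul, ← hD]
      have : t ^ (-(1 / 4) : ℝ) * t ^ (-(1 / 2) : ℝ) = t ^ ((1 / 4 : ℝ) - 1) := by
        rw [← Real.rpow_add ht']
        norm_num
      rw [← this]
      ring
    refine (setLIntegral_mono' measurableSet_Ioi e2).trans ?_
    rw [lintegral_mul_const'' _ (by fun_prop), ← hb2]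
    have h1 := Real.integral_rpow_mul_exp_neg_mul_Ioi (a := 1 / 4) (r := 1) (by norm_num) one_pos
    have hI : IntegrableOn (fun t : ℝ => t ^ ((1 / 4 : ℝ) - 1) * Real.exp (-(1 * t))) (Ioi 0) := by
      by_contra hcon
      rw [integral_undef hcon] at h1
      have : 0 < (1 / 1 : ℝ) ^ (1 / 4 : ℝ) * Real.Gamma (1 / 4) := by positivity
      linarith
    rw [← ofReal_integral_eq_lintegral_ofReal (hI.const_mul _) ?_, integral_const_mul, h1,
      ← ENNReal.ofReal_mul (by positivity)]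
    · apply le_of_eq
      congr 2
      simp
    · refine (ae_restrict_iff' measurableSet_Ioi).mpr (Eventually.of_forall fun t ht => ?_)
      have : (0 : ℝ) < t := ht
      simp only [Pi.zero_apply]
      positivity
  · refine AEMeasurable.mul (by fun_prop) (AEMeasurable.ennreal_ofReal (AEMeasurable.mul ?_ ?_))
    · refine Measurable.aemeasurable ?_
      unfold w rho
      fun_prop
    · exact (hBm.norm.aemeasurable.pow_const 2).comp_fst

end Pool.Agent.U619.LC
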